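import Mathlib

namespace Pool.Agent.Results.MP_261efc_co.NotAll

open Real Finset MeasureTheory

/-- adjacency matrix of the path on `n` vertices -/
def pathAdj (n : ℕ) : Matrix (Fin n) (Fin n) ℂ :=
  fun a b => if a.val + 1 = b.val ∨ b.val + 1 = a.val then 1 else 0

/-- mixing matrix `M(t)` with entries `|exp(i t A)_{ab}|^2` -/
noncomputable def mix (n : ℕ) (t : ℝ) : Matrix (Fin n) (Fin n) ℝ :=
  fun a b => ‖NormedSpace.exp ((Complex.I * (t : ℂ)) • pathAdj n) a b‖ ^ 2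

/-- the mixing matrix averaged against a density -/
noncomputable def avg (n : ℕ) (f : ℝ → ℝ) : Matrix (Fin n) (Fin n) ℝ :=
  fun a b => ∫ s, f s * mix n s a b

/-- the eigenvalue `2 cos (r π / (n+1))` of the path -/
noncomputable def ev (n r : ℕ) : ℝ := 2 * cos (r * (π / (n + 1)))

/-- two pairs of eigenvalues with the same nonzero difference and opposite index parity -/
def Coinc (n : ℕ) : Prop :=
  ∃ r s r' s' : ℕ, r ∈ Icc 1 n ∧ s ∈ Icc 1 n ∧ r' ∈ Icc 1 n ∧ s' ∈ Icc 1 n ∧ r ≠ s ∧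
    Even (r + s) ∧ Odd (r' + s') ∧ ev n r - ev n s = ev n r' - ev n s'

noncomputable def hh (n : ℕ) : ℝ := π / (n + 1)

lemma hh_pos (n : ℕ) : 0 < hh n := by unfold hh; positivity

lemma hh_mul (n : ℕ) : ((n : ℝ) + 1) * hh n = π := by
  unfold hh; field_simp

lemma tele (x : ℝ) (n : ℕ) :
    2 * sin (x / 2) * ∑ a : Fin n, cos (((a : ℕ) + 1) * x) = sin ((n + 1) * x - x / 2) - sin (x / 2) := by
  induction n with
  | zero => simp; ring_nf
  | succ n ih =>
    rw [Fin.sum_univ_castSucc, mul_add]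
    simp only [Fin.val_castSucc, Fin.val_last]
    rw [ih]
    have e1 : ((n + 1 : ℕ) + 1 : ℝ) * x - x / 2 = (n + 1) * x + x / 2 := by push_cast; ring
    rw [e1, sin_add, sin_sub]; ring

lemma Dsum (n : ℕ) (k : ℤ) (hk : cos (k * hh n) ≠ 1) :
    ∑ a : Fin n, cos (((a : ℕ) + 1) * (k * hh n)) = -(1 + cos (k * π)) / 2 := by
  have h := tele (k * hh n) n
  have e : ((n : ℝ) + 1) * (k * hh n) = k * π := by rw [← hh_mul n]; ring
  rw [e, sin_sub, sin_int_mul_pi] at h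
  have hs : sin (k * hh n / 2) ≠ 0 := by
    intro h0
    apply hk
    have := cos_two_mul (k * hh n / 2)
    have h2 := sin_sq_add_cos_sq (k * hh n / 2)
    rw [h0] at h2
    rw [show 2 * (k * hh n / 2) = k * hh n by ring] at this
    rw [this]; nlinarith
  apply mul_left_cancel₀ (mul_ne_zero two_ne_zero hs)
  rw [h]; ring

noncomputable def S (n : ℕ) (a r : Fin n) : ℝ := sin ((((a : ℕ) : ℝ) + 1) * ((((r : ℕ) : ℝ) + 1) * hh n))

lemma S_symm (n : ℕ) (a r : Fin n) : S n a r = S n r a := by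
  unfold S; congr 1; ring

noncomputable def c (n : ℕ) (p : ℤ) (a : Fin n) : ℝ := cos ((((a : ℕ) : ℝ) + 1) * (p * hh n))

noncomputable def X (n : ℕ) (x : Fin n → ℝ) (r s : Fin n) : ℝ := ∑ a, x a * S n a r * S n a s

lemma cos_par (k l : ℤ) : cos (((k + 2 * l : ℤ) : ℝ) * π) = cos (k * π) := by
  rw [← cos_add_int_mul_two_pi (k * π) l]; congr 1; push_cast; ring

lemma X_eq (n : ℕ) (p : ℤ) (r s : Fin n) :
    X n (c n p) r s = (∑ a, c n ((r : ℕ) - (s : ℕ) + p) a + ∑ a, c n ((r : ℕ) - (s : ℕ) - p) a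
      - ∑ a, c n ((r : ℕ) + (s : ℕ) + 2 + p) a - ∑ a, c n ((r : ℕ) + (s : ℕ) + 2 - p) a) / 4 := by
  unfold X
  rw [← sum_add_distrib, ← sum_sub_distrib, ← sum_sub_distrib, sum_div]
  refine sum_congr rfl fun a _ => ?_
  unfold c S
  set A : ℝ := ((a : ℕ) : ℝ) + 1
  set u := A * ((((r : ℕ) : ℝ) + 1) * hh n)
  set v := A * ((((s : ℕ) : ℝ) + 1) * hh n)
  set w := A * (p * hh n)
  have e1 : A * ((((r : ℕ) - (s : ℕ) + p : ℤ) : ℝ) * hh n) = u - v + w := by
    simp only [u, v, w]; push_cast; ring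
  have e2 : A * ((((r : ℕ) - (s : ℕ) - p : ℤ) : ℝ) * hh n) = u - v - w := by
    simp only [u, v, w]; push_cast; ring
  have e3 : A * ((((r : ℕ) + (s : ℕ) + 2 + p : ℤ) : ℝ) * hh n) = u + v + w := by
    simp only [u, v, w]; push_cast; ring
  have e4 : A * ((((r : ℕ) + (s : ℕ) + 2 - p : ℤ) : ℝ) * hh n) = u + v - w := by
    simp only [u, v, w]; push_cast; ring
  rw [e1, e2, e3, e4]
  simp only [cos_add, cos_sub, sin_add, sin_sub]; ring

lemma csum (n : ℕ) (k : ℤ) (hk : cos (k * hh n) ≠ 1) : ∑ a, c n k a = -(1 + cos (k * π)) / 2 :=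
  Dsum n k hk

lemma cos_of_add {x y : ℝ} (h : cos (x + y) = 1) : cos x = cos y := by
  obtain ⟨m, hm⟩ := (cos_eq_one_iff _).1 h
  have : x = -y + m * (2 * π) := by linarith
  rw [this, cos_add_int_mul_two_pi, cos_neg]

lemma cos_of_sub {x y : ℝ} (h : cos (x - y) = 1) : cos x = cos y := by
  have := cos_of_add (x := x) (y := -y) (by simpa [sub_eq_add_neg] using h)
  simpa using this

lemma X_ne (n : ℕ) (p : ℤ) (r s : Fin n) (h : X n (c n p) r s ≠ 0) :
    cos ((((r : ℕ) : ℝ) + 1) * hh n - (((s : ℕ) : ℝ) + 1) * hh n) = cos (p * hh n) ∨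
    cos ((((r : ℕ) : ℝ) + 1) * hh n + (((s : ℕ) : ℝ) + 1) * hh n) = cos (p * hh n) := by
  by_contra hc
  push Not at hc
  obtain ⟨h1, h2⟩ := hc
  apply h
  rw [X_eq, csum, csum, csum, csum]
  · have a1 := cos_par ((r : ℕ) - (s : ℕ) - p) p
    have a2 := cos_par ((r : ℕ) - (s : ℕ) - p) ((s : ℕ) + 1 + p)
    have a3 := cos_par ((r : ℕ) - (s : ℕ) - p) ((s : ℕ) + 1)
    rw [show ((r : ℕ) : ℤ) - (s : ℕ) + p = (r : ℕ) - (s : ℕ) - p + 2 * p by ring, a1,
      show ((r : ℕ) : ℤ) + (s : ℕ) + 2 + p = (r : ℕ) - (s : ℕ) - p + 2 * ((s : ℕ) + 1 + p) by ring, a2,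
      show ((r : ℕ) : ℤ) + (s : ℕ) + 2 - p = (r : ℕ) - (s : ℕ) - p + 2 * ((s : ℕ) + 1) by ring, a3]
    ring
  · intro h0; apply h2; apply cos_of_sub; refine Eq.trans ?_ h0; congr 1; push_cast; ring
  · intro h0; apply h2; apply cos_of_add; refine Eq.trans ?_ h0; congr 1; push_cast; ring
  · intro h0; apply h1; apply cos_of_sub; refine Eq.trans ?_ h0; congr 1; push_cast; ring
  · intro h0; apply h1; apply cos_of_add; refine Eq.trans ?_ h0; congr 1; push_cast; ring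

lemma cos_ne_one (n : ℕ) (k : ℤ) (h0 : k ≠ 0) (h1 : -(2 * ((n : ℤ) + 1)) < k) (h2 : k < 2 * ((n : ℤ) + 1)) :
    cos (k * hh n) ≠ 1 := by
  have hp := hh_pos n
  have hm := hh_mul n
  have h1' : -(2 * ((n : ℝ) + 1)) < k := by exact_mod_cast h1
  have h2' : (k : ℝ) < 2 * ((n : ℝ) + 1) := by exact_mod_cast h2
  rw [Ne, cos_eq_one_iff_of_lt_of_lt (by nlinarith) (by nlinarith)]
  exact mul_ne_zero (by exact_mod_cast h0) hp.ne'

lemma c_zero (n : ℕ) (a : Fin n) : c n 0 a = 1 := by simp [c]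

lemma orth (n : ℕ) (r s : Fin n) : ∑ a, S n a r * S n a s = if r = s then ((n : ℝ) + 1) / 2 else 0 := by
  have h := X_eq n 0 r s
  have e : X n (c n 0) r s = ∑ a, S n a r * S n a s := by simp [X, c_zero]
  rw [← e, h]
  have hr := r.isLt
  have hs := s.isLt
  simp only [add_zero, sub_zero]
  rw [csum n ((r : ℕ) + (s : ℕ) + 2) (cos_ne_one n _ (by omega) (by omega) (by omega))]
  split_ifs with hrs
  · subst hrs
    have a1 := cos_par 0 ((r : ℕ) + 1)
    rw [show ((r : ℕ) : ℤ) + (r : ℕ) + 2 = 0 + 2 * ((r : ℕ) + 1) by ring, a1]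
    simp [c_zero]; ring
  · have hne : (r : ℕ) ≠ (s : ℕ) := fun h => hrs (Fin.ext h)
    rw [csum n ((r : ℕ) - (s : ℕ)) (cos_ne_one n _ (by omega) (by omega) (by omega))]
    have a1 := cos_par ((r : ℕ) - (s : ℕ)) ((s : ℕ) + 1)
    rw [show ((r : ℕ) : ℤ) + (s : ℕ) + 2 = (r : ℕ) - (s : ℕ) + 2 * ((s : ℕ) + 1) by ring, a1]
    ring

noncomputable def th (n : ℕ) (r : Fin n) : ℝ := 2 * cos ((((r : ℕ) : ℝ) + 1) * hh n)

lemma eig (n : ℕ) (a r : Fin n) :
    ∑ b : Fin n, (if a.val + 1 = b.val ∨ b.val + 1 = a.val then (1 : ℝ) else 0) * S n b r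
      = S n a r * th n r := by
  set y : ℝ := (((r : ℕ) : ℝ) + 1) * hh n with hy
  have h1 : ∑ b : Fin n, (if a.val + 1 = b.val then S n b r else 0) = sin ((((a : ℕ) : ℝ) + 1) * y + y) := by
    by_cases ha : a.val + 1 < n
    · rw [sum_eq_single (⟨a.val + 1, ha⟩ : Fin n)]
      · simp only [if_true, S]; congr 1; push_cast; ring
      · intro b _ hb; rw [if_neg]; intro h; exact hb (Fin.ext h.symm)
      · simp
    · have han : a.val + 1 = n := by have := a.isLt; omega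
      rw [sum_eq_zero]
      · have : (((a : ℕ) : ℝ) + 1) * y + y = ((r : ℕ) + 1 : ℕ) * π := by
          have : ((a : ℕ) : ℝ) + 1 = n := by exact_mod_cast han
          rw [this, hy, ← hh_mul n]; push_cast; ring
        rw [this, sin_nat_mul_pi]
      · intro b _; rw [if_neg]; have := b.isLt; omega
  have h2 : ∑ b : Fin n, (if b.val + 1 = a.val then S n b r else 0) = sin ((((a : ℕ) : ℝ) + 1) * y - y) := by
    by_cases ha : 0 < a.val
    · rw [sum_eq_single (⟨a.val - 1, by have := a.isLt; omega⟩ : Fin n)]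
      · rw [if_pos (by simp only; omega)]; simp only [S]; congr 1
        rw [Nat.cast_sub (by omega)]; push_cast; ring
      · intro b _ hb; rw [if_neg]; intro h; apply hb; apply Fin.ext; simp only; omega
      · simp
    · have han : a.val = 0 := by omega
      rw [sum_eq_zero]
      · rw [han]; simp
      · intro b _; rw [if_neg]; omega
  have : ∀ b : Fin n, (if a.val + 1 = b.val ∨ b.val + 1 = a.val then (1 : ℝ) else 0) * S n b r
      = (if a.val + 1 = b.val then S n b r else 0) + (if b.val + 1 = a.val then S n b r else 0) := by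
    intro b
    by_cases p1 : a.val + 1 = b.val <;> by_cases p2 : b.val + 1 = a.val
    · omega
    · simp [p1, p2]
    · simp [p1, p2]
    · simp [p1, p2]
  rw [sum_congr rfl (fun b _ => this b), sum_add_distrib, h1, h2, sin_add, sin_sub]
  simp only [S, th]; ring

lemma exp_entry (n : ℕ) (t : ℝ) (a b : Fin n) :
    NormedSpace.exp ((Complex.I * (t : ℂ)) • pathAdj n) a b
      = ∑ r, ((2 / ((n : ℝ) + 1) * S n a r * S n b r : ℝ) : ℂ) * Complex.exp (((t * th n r : ℝ) : ℂ) * Complex.I) := by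
  let P : Matrix (Fin n) (Fin n) ℂ := fun a r => (S n a r : ℂ)
  let Q : Matrix (Fin n) (Fin n) ℂ := fun r b => ((2 / ((n : ℝ) + 1) * S n b r : ℝ) : ℂ)
  have hn : ((n : ℝ) + 1) ≠ 0 := by positivity
  have hQP : Q * P = 1 := by
    ext r s
    simp only [Matrix.mul_apply, P, Q, ← Complex.ofReal_mul, ← Complex.ofReal_sum, mul_assoc,
      ← mul_sum, orth, Matrix.one_apply]
    split_ifs
    · rw [div_mul_div_cancel₀ hn]; simp
    · simp
  have hPQ : P * Q = 1 := mul_eq_one_comm.1 hQP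
  let U : (Matrix (Fin n) (Fin n) ℂ)ˣ := ⟨P, Q, hPQ, hQP⟩
  let d : Fin n → ℂ := fun r => ((t * th n r : ℝ) : ℂ) * Complex.I
  have hA : (Complex.I * (t : ℂ)) • pathAdj n = (U : Matrix (Fin n) (Fin n) ℂ) * Matrix.diagonal d * (U⁻¹ : (Matrix (Fin n) (Fin n) ℂ)ˣ) := by
    have : ((Complex.I * (t : ℂ)) • pathAdj n) * P = P * Matrix.diagonal d := by
      ext a r
      rw [Matrix.smul_mul, Matrix.smul_apply, Matrix.mul_diagonal, Matrix.mul_apply]
      have h := congrArg (fun x : ℝ => (x : ℂ)) (eig n a r)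
      simp only [Complex.ofReal_sum, Complex.ofReal_mul] at h
      have e : ∑ j, pathAdj n a j * P j r = (S n a r : ℂ) * (th n r : ℂ) := by
        rw [← h]; refine sum_congr rfl fun j _ => ?_
        simp only [pathAdj, P]; split_ifs <;> simp
      rw [e]; simp only [P, d, smul_eq_mul]; push_cast; ring
    change _ = P * Matrix.diagonal d * Q
    rw [← this, Matrix.mul_assoc, hPQ, Matrix.mul_one]
  rw [hA, Matrix.exp_units_conj, Matrix.exp_diagonal]
  change (P * Matrix.diagonal (NormedSpace.exp d) * Q) a b = _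
  rw [Matrix.mul_apply]
  refine sum_congr rfl fun r _ => ?_
  rw [Matrix.mul_diagonal, Pi.coe_exp, ← Complex.exp_eq_exp_ℂ]
  simp only [P, Q, d]; push_cast; ring

lemma norm_sum_sq {ι : Type} [Fintype ι] (w x : ι → ℝ) :
    ‖∑ r, (w r : ℂ) * Complex.exp ((x r : ℂ) * Complex.I)‖ ^ 2 = ∑ r, ∑ s, w r * w s * cos (x r - x s) := by
  rw [← Complex.normSq_eq_norm_sq, Complex.normSq_apply, Complex.re_sum, Complex.im_sum]
  simp only [Complex.re_ofReal_mul, Complex.im_ofReal_mul, Complex.exp_ofReal_mul_I_re,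
    Complex.exp_ofReal_mul_I_im, sum_mul_sum, ← sum_add_distrib, cos_sub]
  refine sum_congr rfl fun r _ => sum_congr rfl fun s _ => by ring

lemma mix_eq (n : ℕ) (t : ℝ) (a b : Fin n) :
    mix n t a b = ∑ r, ∑ s, (2 / ((n : ℝ) + 1) * S n a r * S n b r) * (2 / ((n : ℝ) + 1) * S n a s * S n b s)
      * cos (t * th n r - t * th n s) := by
  unfold mix; rw [exp_entry, norm_sum_sq]

lemma mix_zero (n : ℕ) (a b : Fin n) : mix n 0 a b = if a = b then 1 else 0 := by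
  unfold mix
  simp only [Complex.ofReal_zero, mul_zero, zero_smul, NormedSpace.exp_zero, Matrix.one_apply]
  split_ifs <;> simp

noncomputable def B {n : ℕ} (M : Matrix (Fin n) (Fin n) ℝ) (x y : Fin n → ℝ) : ℝ :=
  ∑ a, ∑ b, x a * y b * M a b

lemma B_mix (n : ℕ) (t : ℝ) (x y : Fin n → ℝ) :
    B (mix n t) x y = ∑ r, ∑ s, (2 / ((n : ℝ) + 1)) ^ 2 * (X n x r s * X n y r s) * cos (t * th n r - t * th n s) := by
  unfold B X
  simp only [mix_eq, mul_sum, sum_mul]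
  have : ∀ F : Fin n → Fin n → Fin n → Fin n → ℝ,
      ∑ a, ∑ b, ∑ r, ∑ s, F a b r s = ∑ r, ∑ s, ∑ b, ∑ a, F a b r s := by
    intro F
    calc ∑ a, ∑ b, ∑ r, ∑ s, F a b r s = ∑ b, ∑ a, ∑ r, ∑ s, F a b r s := sum_comm
      _ = ∑ b, ∑ r, ∑ s, ∑ a, F a b r s := by
        refine sum_congr rfl fun b _ => ?_
        rw [sum_comm]; exact sum_congr rfl fun r _ => sum_comm
      _ = ∑ r, ∑ s, ∑ b, ∑ a, F a b r s := by
        rw [sum_comm]; exact sum_congr rfl fun r _ => sum_comm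
  rw [this]
  refine sum_congr rfl fun r _ => sum_congr rfl fun s _ => sum_congr rfl fun b _ =>
    sum_congr rfl fun a _ => by ring

lemma B_cos (n : ℕ) (t δ : ℝ) (x y : Fin n → ℝ)
    (h : ∀ r s, X n x r s ≠ 0 → X n y r s ≠ 0 → (th n r - th n s) ^ 2 = δ ^ 2) :
    B (mix n t) x y = cos (t * δ) * ∑ a, x a * y a := by
  have h0 : B (mix n 0) x y = ∑ a, x a * y a := by
    unfold B; simp [mix_zero]
  rw [← h0, B_mix, B_mix, mul_sum]
  refine sum_congr rfl fun r _ => ?_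
  rw [mul_sum]
  refine sum_congr rfl fun s _ => ?_
  by_cases hx : X n x r s = 0
  · simp [hx]
  by_cases hy : X n y r s = 0
  · simp [hy]
  have := sq_eq_sq_iff_eq_or_eq_neg.1 (h r s hx hy)
  have e : cos (t * th n r - t * th n s) = cos (t * δ) := by
    rw [← mul_sub]
    rcases this with h | h
    · rw [h]
    · rw [h, mul_neg, cos_neg]
  rw [e]; simp; ring

lemma sq_id (u v : ℝ) : (2 * cos u - 2 * cos v) ^ 2 = 4 * (1 - cos (u - v)) * (1 - cos (u + v)) := by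
  rw [cos_sub, cos_add]
  have h1 := sin_sq_add_cos_sq u
  have h2 := sin_sq_add_cos_sq v
  have e1 : sin u ^ 2 = 1 - cos u ^ 2 := by linarith
  have e2 : sin v ^ 2 = 1 - cos v ^ 2 := by linarith
  have : (sin u * sin v) ^ 2 = (1 - cos u ^ 2) * (1 - cos v ^ 2) := by rw [mul_pow, e1, e2]
  nlinarith

lemma B_pq (n : ℕ) (t δ : ℝ) (p q : ℤ) (hpq : cos (p * hh n) ≠ cos (q * hh n))
    (hδ : δ ^ 2 = 4 * (1 - cos (p * hh n)) * (1 - cos (q * hh n))) :
    B (mix n t) (c n p) (c n q) = cos (t * δ) * (-(1 + cos ((p + q : ℤ) * π)) / 2) := by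
  rw [B_cos n t δ]
  · congr 1
    have e : ∀ a, c n p a * c n q a = (c n (p + q) a + c n (p - q) a) / 2 := by
      intro a; unfold c
      rw [show (((a : ℕ) : ℝ) + 1) * (((p + q : ℤ) : ℝ) * hh n) = (((a : ℕ) : ℝ) + 1) * (p * hh n) + (((a : ℕ) : ℝ) + 1) * (q * hh n) by push_cast; ring,
        show (((a : ℕ) : ℝ) + 1) * (((p - q : ℤ) : ℝ) * hh n) = (((a : ℕ) : ℝ) + 1) * (p * hh n) - (((a : ℕ) : ℝ) + 1) * (q * hh n) by push_cast; ring,
        cos_add, cos_sub]; ring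
    simp only [e, ← sum_div, sum_add_distrib]
    rw [csum, csum]
    · have a1 := cos_par (p - q) q
      rw [show p + q = p - q + 2 * q by ring, a1]; ring
    · intro h0; apply hpq; apply cos_of_sub; refine Eq.trans ?_ h0; congr 1; push_cast; ring
    · intro h0; apply hpq; apply cos_of_add; refine Eq.trans ?_ h0; congr 1; push_cast; ring
  · intro r s hx hy
    unfold th
    rw [sq_id, hδ]
    rcases X_ne n p r s hx with h1 | h1 <;> rcases X_ne n q r s hy with h2 | h2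
    · exact absurd (h1.symm.trans h2) hpq
    · rw [h1, h2]
    · rw [h1, h2]; ring
    · exact absurd (h1.symm.trans h2) hpq

lemma B_00 (n : ℕ) (t : ℝ) : B (mix n t) (c n 0) (c n 0) = cos (t * 0) * n := by
  rw [B_cos n t 0]
  · simp [c_zero]
  · intro r s hx _
    unfold th
    rw [sq_id]
    rcases X_ne n 0 r s hx with h1 | h1 <;> rw [h1] <;> simp

lemma integ (f : ℝ → ℝ) (hf : Integrable f) (δ : ℝ) : Integrable (fun s => f s * cos (s * δ)) :=
  hf.mul_bdd (c := 1) (by fun_prop) (ae_of_all _ fun s => by simpa using abs_cos_le_one _)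

lemma integ_mix (n : ℕ) (f : ℝ → ℝ) (hf : Integrable f) (a b : Fin n) :
    Integrable (fun s => f s * mix n s a b) := by
  simp only [mix_eq, mul_sum]
  refine integrable_finsetSum _ fun r _ => integrable_finsetSum _ fun s _ => ?_
  have := (integ f hf (th n r - th n s)).const_mul
    ((2 / ((n : ℝ) + 1) * S n a r * S n b r) * (2 / ((n : ℝ) + 1) * S n a s * S n b s))
  refine this.congr (ae_of_all _ fun t => ?_)
  simp only [mul_sub]; ring

lemma B_avg (n : ℕ) (f : ℝ → ℝ) (hf : Integrable f) (x y : Fin n → ℝ) (δ K : ℝ)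
    (h : ∀ t, B (mix n t) x y = cos (t * δ) * K) :
    B (avg n f) x y = (∫ s, f s * cos (s * δ)) * K := by
  have : B (avg n f) x y = ∫ s, f s * B (mix n s) x y := by
    unfold B avg
    simp only [mul_sum]
    rw [integral_finsetSum]
    · refine sum_congr rfl fun a _ => ?_
      rw [integral_finsetSum]
      · refine sum_congr rfl fun b _ => ?_
        rw [← integral_const_mul]; congr 1; ext s; ring
      · intro b _
        exact ((integ_mix n f hf a b).const_mul (x a * y b)).congr (ae_of_all _ fun t => by simp only; ring)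
    · intro a _
      refine integrable_finsetSum _ fun b _ => ?_
      exact ((integ_mix n f hf a b).const_mul (x a * y b)).congr (ae_of_all _ fun t => by simp only; ring)
  rw [this, ← integral_mul_const]; congr 1; ext s; rw [h]; ring

lemma B_rank {n : ℕ} (M : Matrix (Fin n) (Fin n) ℝ) (h : M.rank ≤ 1) (x y z w : Fin n → ℝ) :
    B M x y * B M z w = B M x w * B M z y := by
  unfold Matrix.rank at h
  obtain ⟨v, hv⟩ := finrank_le_one_iff.1 h
  have key : ∀ y : Fin n → ℝ, ∃ k : ℝ, ∀ x, B M x y = k * ∑ a, x a * v.1 a := by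
    intro y
    obtain ⟨k, hk⟩ := hv ⟨M.mulVecLin y, LinearMap.mem_range_self _ _⟩
    refine ⟨k, fun x => ?_⟩
    have hk' : ∀ a, k * v.1 a = ∑ b, M a b * y b := fun a => congrFun (congrArg Subtype.val hk) a
    unfold B
    rw [mul_sum]
    refine sum_congr rfl fun a _ => ?_
    rw [show k * (x a * v.1 a) = x a * (k * v.1 a) by ring, hk', mul_sum]
    exact sum_congr rfl fun b _ => by ring
  obtain ⟨k, hk⟩ := key y
  obtain ⟨l, hl⟩ := key w
  rw [hk, hk, hl, hl]; ring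

lemma pair (n : ℕ) (f : ℝ → ℝ) (hf1 : ∫ s, f s = 1) (hr : (avg n f).rank ≤ 1) (r s : ℕ)
    (hr1 : r ∈ Icc 1 n) (hs1 : s ∈ Icc 1 n) (hne : ev n r - ev n s ≠ 0) :
    (∫ t, f t * cos (t * (ev n r - ev n s))) * (-1) * n = ((1 + cos (((r + s : ℕ) : ℝ) * π)) / 2) ^ 2 := by
  have hf : Integrable f := Integrable.of_integral_ne_zero (by rw [hf1]; simp)
  have hp := hh_pos n
  have hm := hh_mul n
  rw [mem_Icc] at hr1 hs1
  have sinpos : ∀ k : ℕ, 1 ≤ k → k ≤ n → 0 < sin (k * hh n) := by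
    intro k h1 h2
    have h1' : (1 : ℝ) ≤ k := by exact_mod_cast h1
    have h2' : (k : ℝ) ≤ n := by exact_mod_cast h2
    exact sin_pos_of_pos_of_lt_pi (by positivity) (by nlinarith)
  have e1 : (((r : ℤ) - s : ℤ) : ℝ) * hh n = r * hh n - s * hh n := by push_cast; ring
  have e2 : (((r : ℤ) + s : ℤ) : ℝ) * hh n = r * hh n + s * hh n := by push_cast; ring
  have hδ : (ev n r - ev n s) ^ 2 = 4 * (1 - cos ((((r : ℤ) - s : ℤ) : ℝ) * hh n)) * (1 - cos ((((r : ℤ) + s : ℤ) : ℝ) * hh n)) := by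
    rw [e1, e2, ← sq_id]; rfl
  have hpq : cos ((((r : ℤ) - s : ℤ) : ℝ) * hh n) ≠ cos ((((r : ℤ) + s : ℤ) : ℝ) * hh n) := by
    rw [e1, e2, cos_sub, cos_add]
    have := mul_pos (sinpos r hr1.1 hr1.2) (sinpos s hs1.1 hs1.2)
    intro h; linarith
  have hp1 : cos ((((r : ℤ) - s : ℤ) : ℝ) * hh n) ≠ cos (((0 : ℤ) : ℝ) * hh n) := by
    intro h; apply hne; apply pow_eq_zero_iff (two_ne_zero) |>.1; rw [hδ, h]; simp
  have hq1 : cos (((0 : ℤ) : ℝ) * hh n) ≠ cos ((((r : ℤ) + s : ℤ) : ℝ) * hh n) := by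
    intro h; apply hne; apply pow_eq_zero_iff (two_ne_zero) |>.1; rw [hδ, ← h]; simp
  have b1 := B_avg n f hf _ _ _ _ (fun t => B_pq n t _ _ _ hpq hδ)
  have b2 := B_avg n f hf _ _ _ _ (fun t => B_00 n t)
  have b3 := B_avg n f hf _ _ _ _ (fun t => B_pq n t 0 _ _ hp1 (by simp))
  have b4 := B_avg n f hf _ _ _ _ (fun t => B_pq n t 0 _ _ hq1 (by simp))
  have hk := B_rank _ hr (c n ((r : ℤ) - s)) (c n ((r : ℤ) + s)) (c n 0) (c n 0)
  rw [b1, b2, b3, b4] at hk
  simp only [mul_zero, cos_zero, mul_one, hf1, one_mul] at hk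
  have a1 := cos_par 0 r
  have a2 := cos_par ((r : ℤ) - s) s
  rw [show (r : ℤ) - s + ((r : ℤ) + s) = 0 + 2 * r by ring, a1, add_zero,
    show (0 : ℤ) + ((r : ℤ) + s) = (r : ℤ) - s + 2 * s by ring, a2] at hk
  rw [show ((r + s : ℕ) : ℝ) = (((r : ℤ) - s + 2 * s : ℤ) : ℝ) by push_cast; ring, a2]
  simp only [Int.cast_zero, zero_mul, cos_zero] at hk
  linarith

lemma main (n : ℕ) (h : Coinc n) (f : ℝ → ℝ) (hf1 : ∫ s, f s = 1) : 2 ≤ (avg n f).rank := by
  by_contra hc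
  have hr : (avg n f).rank ≤ 1 := by omega
  obtain ⟨r, s, r', s', h1, h2, h3, h4, hne, ⟨k, hk⟩, ⟨l, hl⟩, he⟩ := h
  have hp := hh_pos n
  have hm := hh_mul n
  have hne' : ev n r - ev n s ≠ 0 := by
    intro h0
    have h5 : cos (r * hh n) = cos (s * hh n) := by
      have : 2 * cos (r * hh n) - 2 * cos (s * hh n) = 0 := h0
      linarith
    rw [mem_Icc] at h1 h2
    have a1 : (r : ℝ) ≤ n := by exact_mod_cast h1.2
    have a2 : (s : ℝ) ≤ n := by exact_mod_cast h2.2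
    have := injOn_cos ⟨by positivity, by nlinarith⟩ ⟨by positivity, by nlinarith⟩ h5
    exact hne (by exact_mod_cast mul_right_cancel₀ hp.ne' this)
  have p1 := pair n f hf1 hr r s h1 h2 hne'
  have p2 := pair n f hf1 hr r' s' h3 h4 (he ▸ hne')
  rw [← he, p1, hk, hl] at p2
  have a1 : cos (((k + k : ℕ) : ℝ) * π) = 1 := by
    rw [show ((k + k : ℕ) : ℝ) * π = k * (2 * π) by push_cast; ring, cos_nat_mul_two_pi]
  have a2 : cos (((2 * l + 1 : ℕ) : ℝ) * π) = -1 := by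
    rw [show ((2 * l + 1 : ℕ) : ℝ) * π = l * (2 * π) + π by push_cast; ring, cos_nat_mul_two_pi_add_pi]
  rw [a1, a2] at p2
  norm_num at p2

lemma ev_eq (n r m k j : ℕ) (hn : n + 1 = m * k) (hr : r = j * k) : ev n r = 2 * cos (j * π / m) := by
  unfold ev
  have h1 : (n : ℝ) + 1 = m * k := by exact_mod_cast hn
  have hk : (k : ℝ) ≠ 0 := by
    intro h; rw [h] at h1; have : (0 : ℝ) < n + 1 := by positivity
    simp at h1; linarith
  have hm : (m : ℝ) ≠ 0 := by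
    intro h; rw [h] at h1; have : (0 : ℝ) < n + 1 := by positivity
    simp at h1; linarith
  rw [h1, hr]; congr 2; push_cast; field_simp

lemma six (n k : ℕ) (hn : n + 1 = 6 * k) (hk : 2 ≤ k) : Coinc n := by
  obtain ⟨j, hj1, hj2, hj⟩ : ∃ j : ℕ, 1 ≤ j ∧ j ≤ 2 ∧ Odd (j + 3 * k) := by
    rcases Nat.even_or_odd k with ⟨l, hl⟩ | ⟨l, hl⟩
    · exact ⟨1, le_rfl, by norm_num, ⟨3 * l, by omega⟩⟩
    · exact ⟨2, by norm_num, le_rfl, ⟨3 * l + 2, by omega⟩⟩
  refine ⟨j + 2 * k, j + 4 * k, j, 3 * k, by simp; omega, by simp; omega, by simp; omega,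
    by simp; omega, by omega, ⟨j + 3 * k, by omega⟩, hj, ?_⟩
  have h1 : (n : ℝ) + 1 = 6 * k := by exact_mod_cast hn
  have hk0 : (k : ℝ) ≠ 0 := by positivity
  unfold ev
  rw [h1]
  have e1 : ((j + 2 * k : ℕ) : ℝ) * (π / (6 * k)) = j * (π / (6 * k)) + π / 3 := by
    push_cast; field_simp; ring
  have e2 : ((j + 4 * k : ℕ) : ℝ) * (π / (6 * k)) = (j * (π / (6 * k)) - π / 3) + π := by
    push_cast; field_simp; ring
  have e3 : ((3 * k : ℕ) : ℝ) * (π / (6 * k)) = π / 2 := by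
    push_cast; field_simp; ring
  rw [e1, e2, e3, cos_add_pi, cos_add, cos_sub, cos_pi_div_two, cos_pi_div_three]; ring

lemma fifteen (n k : ℕ) (hn : n + 1 = 15 * k) (hk : Odd k) : Coinc n := by
  obtain ⟨l, hl⟩ := hk
  refine ⟨3 * k, 1 * k, 5 * k, 4 * k, by simp; omega, by simp; omega, by simp; omega,
    by simp; omega, by omega, ⟨2 * k, by omega⟩, ⟨9 * l + 4, by omega⟩, ?_⟩
  rw [ev_eq n _ 15 k 3 hn rfl, ev_eq n _ 15 k 1 hn rfl, ev_eq n _ 15 k 5 hn rfl, ev_eq n _ 15 k 4 hn rfl]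
  have e1 : ((3 : ℕ) : ℝ) * π / (15 : ℕ) = π / 5 := by push_cast; ring
  have e2 : ((1 : ℕ) : ℝ) * π / (15 : ℕ) = 2 * (π / 5) - π / 3 := by push_cast; ring
  have e3 : ((5 : ℕ) : ℝ) * π / (15 : ℕ) = π / 3 := by push_cast; ring
  have e4 : ((4 : ℕ) : ℝ) * π / (15 : ℕ) = π - (2 * (π / 5) + π / 3) := by push_cast; ring
  rw [e1, e2, e3, e4, cos_pi_sub, cos_sub, cos_add, cos_pi_div_three, cos_two_mul, cos_pi_div_five]
  have : √5 ^ 2 = 5 := sq_sqrt (by norm_num)
  nlinarith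

lemma twentyone (n k : ℕ) (hn : n + 1 = 21 * k) (hk : Odd k) : Coinc n := by
  obtain ⟨l, hl⟩ := hk
  refine ⟨7 * k, 9 * k, 3 * k, 6 * k, by simp; omega, by simp; omega, by simp; omega,
    by simp; omega, by omega, ⟨8 * k, by omega⟩, ⟨9 * l + 4, by omega⟩, ?_⟩
  rw [ev_eq n _ 21 k 7 hn rfl, ev_eq n _ 21 k 9 hn rfl, ev_eq n _ 21 k 3 hn rfl, ev_eq n _ 21 k 6 hn rfl]
  have e1 : ((7 : ℕ) : ℝ) * π / (21 : ℕ) = π / 3 := by push_cast; ring
  have e2 : ((9 : ℕ) : ℝ) * π / (21 : ℕ) = 3 * (π / 7) := by push_cast; ring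
  have e3 : ((3 : ℕ) : ℝ) * π / (21 : ℕ) = π / 7 := by push_cast; ring
  have e4 : ((6 : ℕ) : ℝ) * π / (21 : ℕ) = 2 * (π / 7) := by push_cast; ring
  have h34 : cos (3 * (π / 7)) = -cos (2 * (2 * (π / 7))) := by
    rw [← cos_pi_sub]; congr 1; ring
  have hpos : 0 < cos (π / 7) := cos_pos_of_mem_Ioo ⟨by linarith [pi_pos], by linarith [pi_pos]⟩
  rw [e1, e2, e3, e4, cos_pi_div_three]
  rw [cos_three_mul, cos_two_mul, cos_two_mul] at h34
  rw [cos_three_mul, cos_two_mul]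
  set x := cos (π / 7)
  have : (x + 1) * (8 * x ^ 3 - 4 * x ^ 2 - 4 * x + 1) = 0 := by nlinarith
  have := (mul_eq_zero.1 this).resolve_left (by linarith)
  nlinarith

theorem result :
    (∀ n : ℕ, Coinc n → ∀ f : ℝ → ℝ, ∫ s, f s = 1 → 2 ≤ (avg n f).rank) ∧
    (∀ n : ℕ, ((6 ∣ n + 1 ∧ 11 ≤ n) ∨ 15 ∣ n + 1 ∨ 21 ∣ n + 1) →
      ∀ f : ℝ → ℝ, ∫ s, f s = 1 → 2 ≤ (avg n f).rank) := by
  refine ⟨main, fun n h => main n ?_⟩
  rcases h with ⟨⟨k, hk⟩, h⟩ | ⟨k, hk⟩ | ⟨k, hk⟩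
  · exact six n k hk (by omega)
  · rcases Nat.even_or_odd k with ⟨l, hl⟩ | h
    · exact six n (5 * l) (by omega) (by omega)
    · exact fifteen n k hk h
  · rcases Nat.even_or_odd k with ⟨l, hl⟩ | h
    · exact six n (7 * l) (by omega) (by omega)
    · exact twentyone n k hk h

end Pool.Agent.Results.MP_261efc_co.NotAll
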